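import Pool.Agent.Helper79.DD.Cod
import Pool.Agent.Helper79.CF.Base

/-!
# The complexity of the coded word
-/

set_option autoImplicit false

namespace Pool.Agent.Helper79.DD

open Pool.Agent.Helper79.CF

variable {I : Type} {A : Type*} [DecidableEq I] {D : ℕ → I} {c : I → ℕ} {e : I → A} {z : A}

/-- The infinite word. -/
def uw (D : ℕ → I) (c : I → ℕ) (e : I → A) (z : A) (n : ℕ) : A :=
  (code c e z (pal (n + 1) D)).getD n z

theorem code_pal_len (m : ℕ) : m ≤ (code c e z (pal m D)).length :=
  (pal_len m D).trans (code_len _)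

theorem uw_eq {m n : ℕ} (h : n < (code c e z (pal m D)).length) :
    uw D c e z n = (code c e z (pal m D))[n] := by
  have h1 : n < (code c e z (pal (n + 1) D)).length := code_pal_len (n + 1)
  unfold uw
  rw [List.getD_eq_getElem _ _ h1]
  rcases le_total (n + 1) m with h2 | h2
  · exact (code_prefix (pal_mono h2 D)).getElem h1
  · exact ((code_prefix (pal_mono h2 D)).getElem h).symm

/-- The prefixes of the word. -/
def pf (D : ℕ → I) (c : I → ℕ) (e : I → A) (z : A) (m : ℕ) : List A :=
  (code c e z (pal m D)).take m

theorem pf_len (m : ℕ) : (pf D c e z m).length = m := by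
  rw [pf, List.length_take]
  exact min_eq_left (code_pal_len m)

theorem prefix_eq_pf {m : ℕ} {w : List A} (h : w <+: code c e z (pal m D)) :
    w = pf D c e z w.length := by
  have h1 : w.length ≤ (code c e z (pal w.length D)).length := code_pal_len _
  apply List.ext_getElem
  · rw [pf_len]
  · intro i hi hi'
    unfold pf
    rw [List.getElem_take, ← uw_eq, h.getElem hi, ← uw_eq]

theorem factor_iff (n : ℕ) (w : List A) :
    (∃ i : ℕ, w = List.ofFn (fun j : Fin n => uw D c e z (i + j))) ↔
      w.length = n ∧ Lu D c e z w := by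
  constructor
  · rintro ⟨i, rfl⟩
    refine ⟨by simp, i + n, ?_⟩
    have h1 : List.ofFn (fun j : Fin n => uw D c e z (i + j)) =
        ((code c e z (pal (i + n) D)).drop i).take n := by
      have hl := code_pal_len (D := D) (c := c) (e := e) (z := z) (i + n)
      apply List.ext_getElem
      · simp only [List.length_ofFn, List.length_take, List.length_drop]
        omega
      · intro k hk hk'
        simp only [List.length_ofFn] at hk
        rw [List.getElem_ofFn, List.getElem_take, List.getElem_drop]
        exact uw_eq (by omega)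
    rw [h1]
    exact (List.take_prefix _ _).isInfix.trans (List.drop_suffix _ _).isInfix
  · rintro ⟨rfl, k, s, t, h⟩
    refine ⟨s.length, ?_⟩
    apply List.ext_getElem
    · simp
    · intro j hj hj'
      rw [List.getElem_ofFn]
      have h1 : s.length + j < (code c e z (pal k D)).length := by
        rw [← h]
        simp only [List.length_append]
        omega
      rw [uw_eq h1]
      simp only [← h]
      rw [List.getElem_append_left (by simp; omega), List.getElem_append_right (by omega)]
      simp

variable [Fintype A]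

open Classical in
/-- The finset of the factors of length `n`. -/
noncomputable def FF (D : ℕ → I) (c : I → ℕ) (e : I → A) (z : A) (n : ℕ) : Finset (List A) :=
  ((List.finite_length_eq A n).subset
    (fun (w : List A) (h : w.length = n ∧ Lu D c e z w) => h.1)).toFinset

theorem mem_FF {n : ℕ} {w : List A} : w ∈ FF D c e z n ↔ w.length = n ∧ Lu D c e z w := by
  unfold FF
  rw [Set.Finite.mem_toFinset]
  rfl

theorem complexity_eq (n : ℕ) : complexity (uw D c e z) n = (FF D c e z n).card := by
  unfold complexity
  have h1 : (List.ofFn '' factors (uw D c e z) n) = (FF D c e z n : Set (List A)) := by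
    ext w
    rw [Finset.mem_coe, mem_FF, ← factor_iff]
    constructor
    · rintro ⟨v, ⟨i, rfl⟩, rfl⟩
      exact ⟨i, rfl⟩
    · rintro ⟨i, rfl⟩
      exact ⟨_, ⟨i, rfl⟩, rfl⟩
  have h2 : (List.ofFn '' factors (uw D c e z) n).ncard = (factors (uw D c e z) n).ncard :=
    Set.ncard_image_of_injective _ List.ofFn_injective
  rw [← h2, h1, Set.ncard_coe_finset]

open Classical in
/-- The number of the left extensions. -/
noncomputable def dg (D : ℕ → I) (c : I → ℕ) (e : I → A) (z : A) (w : List A) : ℕ :=
  (Finset.univ.filter (fun x => Lu D c e z (x :: w))).card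

omit [Fintype A] in
theorem Lu_tail {x : A} {w : List A} (h : Lu D c e z (x :: w)) : Lu D c e z w := by
  obtain ⟨k, s, t, h⟩ := h
  exact ⟨k, s ++ [x], t, by rw [← h]; simp⟩

theorem card_succ (n : ℕ) :
    (FF D c e z (n + 1)).card = ∑ w ∈ FF D c e z n, dg D c e z w := by
  classical
  rw [Finset.card_eq_sum_card_fiberwise (f := List.tail) (t := FF D c e z n)]
  · refine Finset.sum_congr rfl fun w hw => ?_
    rw [mem_FF] at hw
    unfold dg
    symm
    refine Finset.card_bij (fun x _ => x :: w) ?_ ?_ ?_
    · intro x hx
      rw [Finset.mem_filter] at hx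
      rw [Finset.mem_filter, mem_FF]
      exact ⟨⟨by simp [hw.1], hx.2⟩, rfl⟩
    · intro x _ y _ h
      exact (List.cons.inj h).1
    · intro v hv
      rw [Finset.mem_filter, mem_FF] at hv
      obtain ⟨⟨h1, h2⟩, h3⟩ := hv
      cases v with
      | nil => simp at h1
      | cons x v =>
        simp only [List.tail_cons] at h3
        subst h3
        exact ⟨x, by rw [Finset.mem_filter]; exact ⟨Finset.mem_univ _, h2⟩, rfl⟩
  · intro v hv
    rw [Finset.mem_coe, mem_FF] at hv ⊢
    cases v with
    | nil => simp at hv
    | cons x v => exact ⟨by simpa using hv.1, Lu_tail hv.2⟩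

theorem dg_pos (hD : ∀ i n, ∃ m, n ≤ m ∧ D m = i) {w : List A} (h : Lu D c e z w) :
    1 ≤ dg D c e z w := by
  classical
  obtain ⟨k, s, t, h⟩ := h
  obtain ⟨m, s', t', h'⟩ := lg_pre k D (D 0) (hD (D 0))
  have h1 : code c e z (pal m D) =
      (code c e z s' ++ e (D 0) :: (List.replicate (c (D 0)) z ++ s)) ++ w ++
        (t ++ code c e z t') := by
    rw [← h', code_append, code_append, code, ← h]
    simp
  rcases List.eq_nil_or_concat (code c e z s' ++ e (D 0) :: (List.replicate (c (D 0)) z ++ s)) with
    h2 | ⟨q, x, h2⟩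
  · simp at h2
  · rw [h2, List.concat_eq_append] at h1
    have h3 : Lu D c e z (x :: w) := ⟨m, q, t ++ code c e z t', by rw [h1]; simp⟩
    unfold dg
    exact Finset.card_pos.2 ⟨x, by rw [Finset.mem_filter]; exact ⟨Finset.mem_univ _, h3⟩⟩

/-- The other left special words. -/
def Wj (D : ℕ → I) (c : I → ℕ) (e : I → A) (z : A) (n j : ℕ) : List A :=
  List.replicate j z ++ pf D c e z (n - j)

omit [Fintype A] in
theorem pf_head {m : ℕ} (hm : 0 < m) : ∃ (e' : A) (r' : List A),
    pf D c e z m = e' :: r' ∧ e' = e (D 0) := by
  obtain ⟨t, ht⟩ := pal_mono (show 1 ≤ m from hm) D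
  obtain ⟨m, rfl⟩ : ∃ m', m = m' + 1 := ⟨m - 1, by omega⟩
  unfold pf
  rw [← ht]
  exact ⟨e (D 0), (List.replicate (c (D 0)) z ++ code c e z t).take m,
    by simp [pal, psi, code], rfl⟩

open Classical in
/-- The letters at gaps `≥ n`. -/
noncomputable def En (c : I → ℕ) (e : I → A) (n : ℕ) : ℕ :=
  (Finset.univ.filter (fun x => ∃ i, n ≤ c i ∧ e i = x)).card

open Classical in
/-- The letters at gaps `j`. -/
noncomputable def mm (c : I → ℕ) (e : I → A) (j : ℕ) : ℕ :=
  (Finset.univ.filter (fun x => ∃ i, c i = j ∧ e i = x)).card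

open Classical in
/-- Whether there is a larger gap. -/
noncomputable def Gn (c : I → ℕ) (j : ℕ) : ℕ := if ∃ i, j < c i then 1 else 0

theorem card_or {S : A → Prop} (hz : ¬ S z) (Q : Prop) [DecidablePred S]
    [DecidablePred fun x => S x ∨ (x = z ∧ Q)] [Decidable Q] :
    (Finset.univ.filter (fun x => S x ∨ (x = z ∧ Q))).card =
      (Finset.univ.filter S).card + if Q then 1 else 0 := by
  classical
  by_cases hQ : Q
  · rw [if_pos hQ]
    have : Finset.univ.filter (fun x => S x ∨ (x = z ∧ Q)) = insert z (Finset.univ.filter S) := by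
      ext x
      simp only [Finset.mem_filter, Finset.mem_univ, true_and, Finset.mem_insert]
      constructor
      · rintro (h | h)
        · exact Or.inr h
        · exact Or.inl h.1
      · rintro (h | h)
        · exact Or.inr ⟨h, hQ⟩
        · exact Or.inl h
    rw [this, Finset.card_insert_of_notMem (by simp [hz])]
  · rw [if_neg hQ, add_zero]
    congr 1
    ext x
    simp [hQ]

theorem dg_rep (hz : ∀ i, e i ≠ z) (hD : ∀ i n, ∃ m, n ≤ m ∧ D m = i) (n : ℕ) :
    dg D c e z (List.replicate n z) = En c e n + Gn c n := by
  classical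
  unfold dg En Gn
  rw [← card_or (z := z) (S := fun x => ∃ i, n ≤ c i ∧ e i = x) (by
    rintro ⟨i, -, h⟩
    exact hz i h) (∃ i, n < c i)]
  congr 1
  ext x
  simp only [Finset.mem_filter, Finset.mem_univ, true_and]
  exact deg_rep hz hD

theorem dg_Wj (hz : ∀ i, e i ≠ z) (hD : ∀ i n, ∃ m, n ≤ m ∧ D m = i) {n j : ℕ} (hj : j < n) :
    dg D c e z (Wj D c e z n j) = mm c e j + Gn c j := by
  classical
  obtain ⟨e', r', h1, h2⟩ := pf_head (D := D) (c := c) (e := e) (z := z) (m := n - j) (by omega)
  unfold dg mm Gn
  rw [← card_or (z := z) (S := fun x => ∃ i, c i = j ∧ e i = x) (by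
    rintro ⟨i, -, h⟩
    exact hz i h) (∃ i, j < c i)]
  congr 1
  ext x
  simp only [Finset.mem_filter, Finset.mem_univ, true_and]
  unfold Wj
  rw [h1]
  refine deg_pre hz hD (by rw [h2]; exact hz _) (m := n - j) ?_
  rw [← h1]
  exact List.take_prefix _ _

/-- **The complexity of the coded word**. -/
theorem recursion (hz : ∀ i, e i ≠ z) (hinj : ∀ i j, c i = c j → e i = e j → i = j)
    (hD : ∀ i n, ∃ m, n ≤ m ∧ D m = i) (n : ℕ) :
    complexity (uw D c e z) (n + 1) = complexity (uw D c e z) n +
      ((En c e n + Gn c n - 1) + ∑ j ∈ Finset.range n, (mm c e j + Gn c j - 1)) := by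
  classical
  rw [complexity_eq, complexity_eq, card_succ]
  have h1 : ∑ w ∈ FF D c e z n, dg D c e z w =
      (FF D c e z n).card + ∑ w ∈ FF D c e z n, (dg D c e z w - 1) := by
    rw [Finset.card_eq_sum_ones, ← Finset.sum_add_distrib]
    refine Finset.sum_congr rfl fun w hw => ?_
    have := dg_pos hD (mem_FF.1 hw).2
    omega
  rw [h1]
  congr 1
  set T : Finset (List A) :=
    insert (List.replicate n z) ((Finset.range n).image (Wj D c e z n)) with hT
  have h2 : ∑ w ∈ FF D c e z n, (dg D c e z w - 1) = ∑ w ∈ T, (dg D c e z w - 1) := by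
    have e1 : ∑ w ∈ FF D c e z n, (dg D c e z w - 1) =
        ∑ w ∈ FF D c e z n ∪ T, (dg D c e z w - 1) := by
      refine Finset.sum_subset Finset.subset_union_left fun w hw hw' => ?_
      have hlen : w.length = n := by
        rcases Finset.mem_union.1 hw with h | h
        · exact absurd h hw'
        · rw [hT, Finset.mem_insert, Finset.mem_image] at h
          rcases h with h | ⟨j, hj, h⟩
          · rw [h]
            simp
          · rw [← h]
            rw [Finset.mem_range] at hj
            unfold Wj
            rw [List.length_append, pf_len, List.length_replicate]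
            omega
      have : dg D c e z w = 0 := by
        unfold dg
        rw [Finset.card_eq_zero, Finset.filter_eq_empty_iff]
        intro x _ hx
        exact hw' (mem_FF.2 ⟨hlen, Lu_tail hx⟩)
      omega
    have e2 : ∑ w ∈ T, (dg D c e z w - 1) = ∑ w ∈ FF D c e z n ∪ T, (dg D c e z w - 1) := by
      refine Finset.sum_subset Finset.subset_union_right fun w hw hw' => ?_
      have hF : w ∈ FF D c e z n := by
        rcases Finset.mem_union.1 hw with h | h
        · exact h
        · exact absurd h hw'
      have : dg D c e z w ≤ 1 := by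
        unfold dg
        rw [Finset.card_le_one]
        intro x hx y hy
        rw [Finset.mem_filter] at hx hy
        by_contra hxy
        apply hw'
        rw [hT, Finset.mem_insert, Finset.mem_image]
        rcases classify hz hinj hxy hx.2 hy.2 with ⟨m, hm⟩ | ⟨j, e', r', he, hw2, m, hm⟩
        · left
          have := (mem_FF.1 hF).1
          rw [hm, List.length_replicate] at this
          rw [hm, this]
        · right
          have h3 := (mem_FF.1 hF).1
          have h4 := prefix_eq_pf hm
          rw [hw2, List.length_append, List.length_replicate] at h3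
          have h5 : 0 < (e' :: r').length := by simp
          refine ⟨j, Finset.mem_range.2 (by omega), ?_⟩
          unfold Wj
          rw [hw2, h4]
          congr 2
          omega
      omega
    rw [e1, e2]
  rw [h2, hT, Finset.sum_insert, Finset.sum_image, dg_rep hz hD]
  · congr 1
    refine Finset.sum_congr rfl fun j hj => ?_
    rw [dg_Wj hz hD (Finset.mem_range.1 hj)]
  · intro j hj k hk h
    rw [Finset.mem_coe, Finset.mem_range] at hj hk
    obtain ⟨e1, r1, h3, h4⟩ := pf_head (D := D) (c := c) (e := e) (z := z) (m := n - j) (by omega)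
    obtain ⟨e2, r2, h5, h6⟩ := pf_head (D := D) (c := c) (e := e) (z := z) (m := n - k) (by omega)
    have h' : Wj D c e z n j = Wj D c e z n k := h
    unfold Wj at h'
    rw [h3, h5] at h'
    exact (rep_inj (by rw [h4]; exact hz _) (by rw [h6]; exact hz _) _ _ _ _ h').1
  · rw [Finset.mem_image]
    rintro ⟨j, hj, h⟩
    rw [Finset.mem_range] at hj
    obtain ⟨e1, r1, h3, h4⟩ := pf_head (D := D) (c := c) (e := e) (z := z) (m := n - j) (by omega)
    unfold Wj at h
    rw [h3] at h
    have : e1 ∈ List.replicate n z := by
      rw [← h]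
      simp
    rw [List.mem_replicate] at this
    exact hz _ (h4.symm.trans this.2)

end Pool.Agent.Helper79.DD
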