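import Pool.Agent.Helper79.DD.Epi

/-!
# Coding of a word over an arbitrary alphabet: `i ↦ e_i z^(c_i)`
-/

set_option autoImplicit false

namespace Pool.Agent.Helper79.DD

variable {I : Type} {A : Type*} [DecidableEq I]

/-- The coding. -/
def code (c : I → ℕ) (e : I → A) (z : A) : List I → List A
  | [] => []
  | i :: l => e i :: (List.replicate (c i) z ++ code c e z l)

/-- The factors of the coded word. -/
def Lu (D : ℕ → I) (c : I → ℕ) (e : I → A) (z : A) (w : List A) : Prop :=
  ∃ k, w <:+: code c e z (pal k D)

variable {c : I → ℕ} {e : I → A} {z : A}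

omit [DecidableEq I] in
theorem code_append (l m : List I) :
    code c e z (l ++ m) = code c e z l ++ code c e z m := by
  induction l with
  | nil => rfl
  | cons x l ih => simp [code, ih]

omit [DecidableEq I] in
theorem code_len (l : List I) : l.length ≤ (code c e z l).length := by
  induction l with
  | nil => exact le_refl _
  | cons x l ih =>
    simp only [code, List.length_cons, List.length_append, List.length_replicate]
    omega

omit [DecidableEq I] in
theorem code_prefix {v P : List I} (h : v <+: P) : code c e z v <+: code c e z P := by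
  obtain ⟨t, rfl⟩ := h
  rw [code_append]
  exact List.prefix_append _ _

theorem rep_split {x y z : A} (hy : y ≠ z) (j : ℕ) : ∀ (k : ℕ) (s s' : List A),
    s ++ x :: List.replicate j z = s' ++ y :: List.replicate k z →
    (x = y ∧ j = k) ∨ (x = z ∧ j < k) := by
  induction j with
  | zero =>
    intro k s s' h
    cases k with
    | zero =>
      have := List.append_inj' h rfl
      simp only [List.replicate_zero, List.cons.injEq, and_true] at this
      exact Or.inl ⟨this.2, rfl⟩
    | succ k =>
      rw [List.replicate_succ', ← List.cons_append, ← List.append_assoc] at h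
      have := List.append_inj' h rfl
      simp only [List.replicate_zero, List.cons.injEq, and_true] at this
      exact Or.inr ⟨this.2, Nat.succ_pos k⟩
  | succ j ih =>
    intro k s s' h
    cases k with
    | zero =>
      rw [List.replicate_succ', ← List.cons_append, ← List.append_assoc] at h
      have := List.append_inj' h rfl
      simp only [List.replicate_zero, List.cons.injEq, and_true] at this
      exact absurd this.2.symm hy
    | succ k =>
      rw [List.replicate_succ', ← List.cons_append, ← List.append_assoc,
        List.replicate_succ', ← List.cons_append, ← List.append_assoc] at h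
      have := List.append_inj' h rfl
      rcases ih k s s' this.1 with h1 | h1
      · exact Or.inl ⟨h1.1, by omega⟩
      · exact Or.inr ⟨h1.1, by omega⟩

omit [DecidableEq I] in
theorem start_split {e' : A} (he : e' ≠ z) (q : List A) : ∀ (P : List I) (s : List A),
    code c e z P = s ++ e' :: q →
    ∃ P1 P2, P = P1 ++ P2 ∧ s = code c e z P1 ∧ e' :: q = code c e z P2 := by
  intro P
  induction P with
  | nil =>
    intro s h
    have := congrArg List.length h
    simp [code] at this
  | cons p P ih =>
    intro s h
    cases s with
    | nil => exact ⟨[], p :: P, rfl, rfl, h.symm⟩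
    | cons x s =>
      simp only [code, List.cons_append, List.cons.injEq] at h
      obtain ⟨h1, h2⟩ := h
      rcases List.append_eq_append_iff.1 h2 with ⟨as, h3, h4⟩ | ⟨bs, h3, h4⟩
      · obtain ⟨P1, P2, h5, h6, h7⟩ := ih as h4
        exact ⟨p :: P1, P2, by rw [h5]; rfl, by rw [h3, h6, ← h1]; rfl, h7⟩
      · cases bs with
        | nil =>
          obtain ⟨P1, P2, h5, h6, h7⟩ := ih [] (by simpa using h4.symm)
          refine ⟨p :: P1, P2, by rw [h5]; rfl, ?_, h7⟩
          rw [← h1]
          simp only [code, ← h6, List.append_nil]
          rw [h3]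
          simp
        | cons b bs =>
          simp only [List.cons_append, List.cons.injEq] at h4
          have : b ∈ List.replicate (c p) z := by
            rw [h3]
            simp
          rw [List.mem_replicate] at this
          exact absurd (h4.1.trans this.2) he

omit [DecidableEq I] in
theorem pre_parse : ∀ (P : List I) (r : List A), r ≠ [] → r <+: code c e z P →
    ∃ (v : List I) (b : I) (P2 : List I) (t : ℕ), P = v ++ b :: P2 ∧
      r = code c e z v ++ e b :: List.replicate t z ∧ t ≤ c b := by
  intro P
  induction P with
  | nil =>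
    intro r hr h
    exact absurd (List.prefix_nil.1 h) hr
  | cons p P ih =>
    intro r hr h
    cases r with
    | nil => exact absurd rfl hr
    | cons x r =>
      obtain ⟨t, h⟩ := h
      simp only [code, List.cons_append, List.cons.injEq] at h
      obtain ⟨h1, h2⟩ := h
      rcases List.append_eq_append_iff.1 h2 with ⟨as, h3, h4⟩ | ⟨bs, h3, h4⟩
      · -- replicate = r ++ as
        refine ⟨[], p, P, r.length, rfl, ?_, ?_⟩
        · rw [h1]
          have : r = List.replicate r.length z := by
            rw [List.eq_replicate_iff]
            refine ⟨rfl, fun b hb => ?_⟩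
            have : b ∈ List.replicate (c p) z := by
              rw [h3]
              exact List.mem_append_left _ hb
            exact (List.mem_replicate.1 this).2
          rw [← this]
          rfl
        · have := congrArg List.length h3
          simp only [List.length_replicate, List.length_append] at this
          omega
      · by_cases hb : bs = []
        · refine ⟨[], p, P, c p, rfl, ?_, le_refl _⟩
          rw [h1, h3, hb, List.append_nil]
          rfl
        · obtain ⟨v, b, P2, t2, h5, h6, h7⟩ := ih bs hb ⟨t, h4.symm⟩
          refine ⟨p :: v, b, P2, t2, by rw [h5]; rfl, ?_, h7⟩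
          rw [h1, h3, h6]
          simp [code]

theorem rep_inj {z h h' : A} (h1 : h ≠ z) (h2 : h' ≠ z) (m : ℕ) : ∀ (n : ℕ) (l l' : List A),
    List.replicate m z ++ h :: l = List.replicate n z ++ h' :: l' → m = n ∧ h :: l = h' :: l' := by
  induction m with
  | zero =>
    intro n l l' he
    cases n with
    | zero => exact ⟨rfl, by simpa using he⟩
    | succ n =>
      simp only [List.replicate_zero, List.nil_append, List.replicate_succ, List.cons_append,
        List.cons.injEq] at he
      exact absurd he.1 h1
  | succ m ih =>
    intro n l l' he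
    cases n with
    | zero =>
      simp only [List.replicate_zero, List.nil_append, List.replicate_succ, List.cons_append,
        List.cons.injEq] at he
      exact absurd he.1.symm h2
    | succ n =>
      simp only [List.replicate_succ, List.cons_append, List.cons.injEq, true_and] at he
      have := ih n l l' he
      exact ⟨by omega, this.2⟩

omit [DecidableEq I] in
theorem rest_cons (v : List I) (b : I) (t : ℕ) (hz : ∀ i, e i ≠ z) :
    ∃ (h : A) (l : List A), h ≠ z ∧ code c e z v ++ e b :: List.replicate t z = h :: l := by
  cases v with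
  | nil => exact ⟨e b, _, hz b, rfl⟩
  | cons x v => exact ⟨e x, _, hz x, rfl⟩

omit [DecidableEq I] in
theorem uniq (hz : ∀ i, e i ≠ z) (hinj : ∀ i j, c i = c j → e i = e j → i = j) (v : List I) :
    ∀ (v2 : List I) (b b2 : I) (t t2 : ℕ),
    code c e z v ++ e b :: List.replicate t z = code c e z v2 ++ e b2 :: List.replicate t2 z →
    v = v2 ∧ e b = e b2 ∧ t = t2 := by
  induction v with
  | nil =>
    intro v2 b b2 t t2 h
    cases v2 with
    | nil =>
      simp only [code, List.nil_append, List.cons.injEq] at h
      have := congrArg List.length h.2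
      simp only [List.length_replicate] at this
      exact ⟨rfl, h.1, this⟩
    | cons y v2 =>
      simp only [code, List.nil_append, List.cons_append, List.cons.injEq] at h
      have : e b2 ∈ List.replicate t z := by
        rw [h.2]
        simp
      exact absurd (List.mem_replicate.1 this).2 (hz b2)
  | cons x v ih =>
    intro v2 b b2 t t2 h
    cases v2 with
    | nil =>
      simp only [code, List.nil_append, List.cons_append, List.cons.injEq] at h
      have : e b ∈ List.replicate t2 z := by
        rw [← h.2]
        simp
      exact absurd (List.mem_replicate.1 this).2 (hz b)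
    | cons y v2 =>
      simp only [code, List.cons_append, List.cons.injEq, List.append_assoc] at h
      obtain ⟨a1, l1, g1, e1⟩ := rest_cons (c := c) v b t hz
      obtain ⟨a2, l2, g2, e2⟩ := rest_cons (c := c) v2 b2 t2 hz
      have h2 := h.2
      rw [e1, e2] at h2
      obtain ⟨h3, h4⟩ := rep_inj g1 g2 _ _ _ _ h2
      have h5 := ih v2 b b2 t t2 (by rw [e1, e2, h4])
      exact ⟨by rw [hinj x y h3 h.1, h5.1], h5.2⟩

theorem occ (hz : ∀ i, e i ≠ z) {D : ℕ → I} {x e' : A} {j : ℕ} {r' : List A} (he : e' ≠ z)
    (h : Lu D c e z (x :: (List.replicate j z ++ e' :: r'))) :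
    ∃ (i : I) (v : List I) (b : I) (t : ℕ), Lg D (i :: (v ++ [b])) ∧
      e' :: r' = code c e z v ++ e b :: List.replicate t z ∧ t ≤ c b ∧
      ((x = e i ∧ j = c i) ∨ (x = z ∧ j < c i)) := by
  obtain ⟨k, s, t', h⟩ := h
  have h1 : code c e z (pal k D) = (s ++ x :: List.replicate j z) ++ e' :: (r' ++ t') := by
    rw [← h]
    simp
  obtain ⟨P1, P2, h2, h3, h4⟩ := start_split he _ _ _ h1
  rcases List.eq_nil_or_concat P1 with h5 | ⟨P1', i, h5⟩
  · rw [h5] at h3
    have := congrArg List.length h3
    simp [code] at this
  · rw [List.concat_eq_append] at h5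
    rw [h5, code_append] at h3
    have h6 : s ++ x :: List.replicate j z =
        code c e z P1' ++ e i :: List.replicate (c i) z := by
      rw [h3]
      simp [code]
    obtain ⟨v, b, P3, t, h7, h8, h9⟩ := pre_parse (c := c) (e := e) (z := z) P2 (e' :: r')
      (by simp) ⟨t', by rw [← h4]; simp⟩
    refine ⟨i, v, b, t, ⟨k, P1', P3, ?_⟩, h8, h9, rep_split (hz i) _ _ _ _ h6⟩
    rw [h2, h5, h7]
    simp

/-- Every list begins with letters `z`, followed by nothing or by another letter. -/
theorem lead (z : A) (w : List A) : ∃ (j : ℕ) (r : List A), w = List.replicate j z ++ r ∧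
    (r = [] ∨ ∃ e' r', r = e' :: r' ∧ e' ≠ z) := by
  induction w with
  | nil => exact ⟨0, [], rfl, Or.inl rfl⟩
  | cons x w ih =>
    by_cases hx : x = z
    · obtain ⟨j, r, h1, h2⟩ := ih
      exact ⟨j + 1, r, by rw [hx, h1]; rfl, h2⟩
    · exact ⟨0, x :: w, rfl, Or.inr ⟨x, w, rfl, hx⟩⟩

/-- **Classification** of the left special factors. -/
theorem classify (hz : ∀ i, e i ≠ z) (hinj : ∀ i j, c i = c j → e i = e j → i = j)
    {D : ℕ → I} {x y : A} {w : List A} (hxy : x ≠ y)
    (h1 : Lu D c e z (x :: w)) (h2 : Lu D c e z (y :: w)) :
    (∃ n, w = List.replicate n z) ∨ ∃ (j : ℕ) (e' : A) (r' : List A), e' ≠ z ∧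
      w = List.replicate j z ++ e' :: r' ∧ ∃ m, e' :: r' <+: code c e z (pal m D) := by
  obtain ⟨j, r, hw, hr | ⟨e', r', hr, he⟩⟩ := lead z w
  · left
    exact ⟨j, by rw [hw, hr, List.append_nil]⟩
  · right
    rw [hr] at hw
    subst hw
    obtain ⟨i, v, b, t, g1, g2, g3, g4⟩ := occ hz he h1
    obtain ⟨k, v2, b2, t2, f1, f2, f3, f4⟩ := occ hz he h2
    obtain ⟨u1, u2, u3⟩ := uniq hz hinj v v2 b b2 t t2 (g2.symm.trans f2)
    subst u1
    subst u3
    have hik : i ≠ k := by
      rintro rfl
      rcases g4 with g4 | g4 <;> rcases f4 with f4 | f4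
      · exact hxy (g4.1.trans f4.1.symm)
      · omega
      · omega
      · exact hxy (g4.1.trans f4.1.symm)
    refine ⟨j, e', r', he, rfl, ?_⟩
    obtain ⟨m, hm⟩ := star hik g1 f1
    refine ⟨m, ?_⟩
    have key : ∀ b3 : I, t ≤ c b3 → e b3 = e b → v ++ [b3] <+: pal m D →
        e' :: r' <+: code c e z (pal m D) := by
      intro b3 h3 h4 h5
      refine List.IsPrefix.trans ?_ (code_prefix h5)
      rw [g2, code_append, ← h4]
      refine (List.prefix_append_right_inj _).2 ?_
      simp only [code, List.append_nil]
      refine List.cons_prefix_cons.2 ⟨rfl, ?_⟩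
      obtain ⟨q, hq⟩ := Nat.exists_eq_add_of_le h3
      rw [hq, List.replicate_add]
      exact List.prefix_append _ _
    rcases hm with hm | hm
    · exact key b g3 rfl hm
    · exact key b2 f3 u2.symm hm

/-- Left extensions, second kind. -/
theorem deg_pre (hz : ∀ i, e i ≠ z) {D : ℕ → I} (hD : ∀ i n, ∃ m, n ≤ m ∧ D m = i)
    {x e' : A} {j : ℕ} {r' : List A} (he : e' ≠ z) {m : ℕ}
    (hp : e' :: r' <+: code c e z (pal m D)) :
    Lu D c e z (x :: (List.replicate j z ++ e' :: r')) ↔
      (∃ i, c i = j ∧ e i = x) ∨ (x = z ∧ ∃ i, j < c i) := by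
  constructor
  · intro h
    obtain ⟨i, v, b, t, -, -, -, g4⟩ := occ hz he h
    rcases g4 with g4 | g4
    · exact Or.inl ⟨i, g4.2.symm, g4.1.symm⟩
    · exact Or.inr ⟨g4.1, i, g4.2⟩
  · have key : ∀ i : I, ∃ k s t, code c e z (pal k D) =
        s ++ (e i :: (List.replicate (c i) z ++ (code c e z (pal m D) ++ t))) := by
      intro i
      obtain ⟨k, s, t, h⟩ := lg_pre m D i (hD i)
      refine ⟨k, code c e z s, code c e z t, ?_⟩
      rw [← h, code_append, code_append]
      simp [code]
    obtain ⟨q, hq⟩ := hp
    rintro (⟨i, h1, h2⟩ | ⟨h1, i, h2⟩)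
    · obtain ⟨k, s, t, h⟩ := key i
      refine ⟨k, s, q ++ t, ?_⟩
      rw [h, ← hq, h1, h2]
      simp
    · obtain ⟨k, s, t, h⟩ := key i
      obtain ⟨d, hd⟩ := Nat.exists_eq_add_of_lt h2
      refine ⟨k, s ++ e i :: List.replicate d z, q ++ t, ?_⟩
      rw [h, ← hq, h1, hd]
      have : List.replicate (j + d + 1) z = List.replicate d z ++ (z :: List.replicate j z) := by
        rw [← List.replicate_succ, ← List.replicate_add]
        congr 1
        omega
      rw [this]
      simp

omit [DecidableEq I] in
theorem rep_le (hz : ∀ i, e i ≠ z) {n m : ℕ} {t : List A} {P : List I}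
    (h : List.replicate n z ++ t = List.replicate m z ++ code c e z P) : n ≤ m := by
  by_contra hlt
  obtain ⟨d, hd⟩ := Nat.exists_eq_add_of_lt (not_le.1 hlt)
  rw [hd, show m + d + 1 = m + (d + 1) by omega, List.replicate_add, List.append_assoc] at h
  have h1 := List.append_cancel_left h
  cases P with
  | nil =>
    have := congrArg List.length h1
    simp [code] at this
  | cons p P =>
    simp only [List.replicate_succ, List.cons_append, code, List.cons.injEq] at h1
    exact hz p h1.1.symm

/-- Left extensions, first kind. -/
theorem deg_rep (hz : ∀ i, e i ≠ z) {D : ℕ → I} (hD : ∀ i n, ∃ m, n ≤ m ∧ D m = i)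
    {x : A} {n : ℕ} : Lu D c e z (x :: List.replicate n z) ↔
      (∃ i, n ≤ c i ∧ e i = x) ∨ (x = z ∧ ∃ i, n < c i) := by
  have hfirst : ∀ (P : List I) (s t : List A) (x : A) (n : ℕ), x ≠ z →
      code c e z P = s ++ x :: (List.replicate n z ++ t) → ∃ i, n ≤ c i ∧ e i = x := by
    intro P s t x n hx h
    obtain ⟨P1, P2, h1, h2, h3⟩ := start_split hx _ _ _ h
    cases P2 with
    | nil => simp [code] at h3
    | cons p P2 =>
      simp only [code, List.cons.injEq] at h3
      exact ⟨p, rep_le hz h3.2, h3.1.symm⟩
  constructor
  · rintro ⟨k, s, t, h⟩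
    have h1 : code c e z (pal k D) = s ++ x :: (List.replicate n z ++ t) := by
      rw [← h]
      simp
    by_cases hx : x = z
    · right
      refine ⟨hx, ?_⟩
      -- the last letter of s which is not z
      obtain ⟨j, r, hs, hr⟩ := lead z s.reverse
      have hs' : s = r.reverse ++ List.replicate j z := by
        have := congrArg List.reverse hs
        simpa using this
      rcases hr with hr | ⟨e', r', hr, he⟩
      · rw [hr] at hs'
        rw [hs', hx] at h1
        exfalso
        cases hP : pal k D with
        | nil =>
          rw [hP] at h1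
          have := congrArg List.length h1
          simp [code] at this
        | cons p P =>
          rw [hP] at h1
          cases j with
          | zero =>
            simp only [code, List.reverse_nil, List.replicate_zero, List.nil_append,
              List.cons.injEq] at h1
            exact hz p h1.1
          | succ j =>
            simp only [code, List.reverse_nil, List.nil_append, List.replicate_succ,
              List.cons_append, List.cons.injEq] at h1
            exact hz p h1.1
      · rw [hr] at hs'
        rw [hs', hx] at h1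
        have h2 : code c e z (pal k D) =
            r'.reverse ++ e' :: (List.replicate (j + (n + 1)) z ++ t) := by
          rw [h1, List.replicate_add, List.replicate_succ]
          simp
        obtain ⟨i, hi, -⟩ := hfirst _ _ _ _ _ he h2
        exact ⟨i, by omega⟩
    · left
      exact hfirst _ _ _ _ _ hx h1
  · have key : ∀ i : I, ∃ k s t, code c e z (pal k D) =
        s ++ (e i :: (List.replicate (c i) z ++ t)) := by
      intro i
      obtain ⟨k, s, t, h⟩ := lg_pre 0 D i (hD i)
      refine ⟨k, code c e z s, code c e z t, ?_⟩
      rw [← h, code_append, code_append]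
      simp [code, pal]
    rintro (⟨i, h1, h2⟩ | ⟨h1, i, h2⟩)
    · obtain ⟨k, s, t, h⟩ := key i
      obtain ⟨d, hd⟩ := Nat.exists_eq_add_of_le h1
      refine ⟨k, s, List.replicate d z ++ t, ?_⟩
      rw [h, hd, h2]
      have : List.replicate (n + d) z ++ t =
          List.replicate n z ++ (List.replicate d z ++ t) := by
        rw [List.replicate_add, List.append_assoc]
      rw [this]
      simp
    · obtain ⟨k, s, t, h⟩ := key i
      obtain ⟨d, hd⟩ := Nat.exists_eq_add_of_lt h2
      refine ⟨k, s ++ e i :: List.replicate d z, t, ?_⟩
      rw [h, h1, hd]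
      have : List.replicate (n + d + 1) z = List.replicate d z ++ (z :: List.replicate n z) := by
        rw [← List.replicate_succ, ← List.replicate_add]
        congr 1
        omega
      rw [this]
      simp

end Pool.Agent.Helper79.DD
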