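import Mathlib

/-!
# Episturmian words over an arbitrary alphabet

`pal k D` are the palindromic prefixes of the standard episturmian word with the directive sequence
`D`; `Lg D` is its set of factors.
-/

set_option autoImplicit false

namespace Pool.Agent.Helper79.DD

variable {I : Type} [DecidableEq I]

/-- The morphism `a ↦ a`, `x ↦ a x` for `x ≠ a`. -/
def psi (a : I) : List I → List I
  | [] => []
  | x :: l => if x = a then a :: psi a l else a :: x :: psi a l

/-- The palindromic prefixes. -/
def pal : ℕ → (ℕ → I) → List I
  | 0, _ => []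
  | k + 1, D => psi (D 0) (pal k fun n => D (n + 1)) ++ [D 0]

/-- The factors. -/
def Lg (D : ℕ → I) (w : List I) : Prop := ∃ k, w <:+: pal k D

theorem psi_append (a : I) (l m : List I) : psi a (l ++ m) = psi a l ++ psi a m := by
  induction l with
  | nil => rfl
  | cons x l ih =>
    simp only [List.cons_append, psi, ih]
    split_ifs <;> rfl

theorem psi_app_head (a : I) (l : List I) (t : List I) :
    ∃ t', psi a l ++ a :: t = a :: t' := by
  cases l with
  | nil => exact ⟨t, rfl⟩
  | cons x l =>
    by_cases h : x = a
    · exact ⟨psi a l ++ a :: t, by simp [psi, h]⟩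
    · exact ⟨x :: (psi a l ++ a :: t), by simp [psi, h]⟩

theorem psi_len (a : I) (l : List I) : l.length ≤ (psi a l).length := by
  induction l with
  | nil => exact le_refl _
  | cons x l ih =>
    simp only [psi]
    split_ifs <;> simp <;> omega

theorem psi_prefix {a : I} {v P : List I} (h : v <+: P) :
    psi a v ++ [a] <+: psi a P ++ [a] := by
  obtain ⟨t, rfl⟩ := h
  rw [psi_append]
  obtain ⟨t', ht⟩ := psi_app_head a t []
  rw [List.append_assoc, ht]
  exact ⟨t', by simp⟩

theorem pal_prefix (k : ℕ) : ∀ D : ℕ → I, pal k D <+: pal (k + 1) D := by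
  induction k with
  | zero => exact fun D => List.nil_prefix
  | succ k ih => exact fun D => psi_prefix (ih fun n => D (n + 1))

theorem pal_mono {k m : ℕ} (h : k ≤ m) (D : ℕ → I) : pal k D <+: pal m D := by
  induction m, h using Nat.le_induction with
  | base => exact List.prefix_rfl
  | succ m _ ih => exact ih.trans (pal_prefix m D)

theorem pal_len (k : ℕ) : ∀ D : ℕ → I, k ≤ (pal k D).length := by
  induction k with
  | zero => exact fun D => Nat.zero_le _
  | succ k ih =>
    intro D
    have h1 := ih fun n => D (n + 1)
    have h2 := psi_len (D 0) (pal k fun n => D (n + 1))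
    simp only [pal, List.length_append, List.length_singleton]
    omega

/-- Desubstitution at the beginning. -/
theorem desub_prefix (a b : I) (v : List I) : ∀ P : List I,
    psi a v ++ [a, b] <+: psi a P ++ [a] → v ++ [b] <+: P := by
  induction v with
  | nil =>
    intro P h
    cases P with
    | nil =>
      have := h.length_le
      simp [psi] at this
    | cons p P =>
      by_cases hp : p = a
      · subst hp
        obtain ⟨t', ht⟩ := psi_app_head p P []
        simp only [psi, if_true, List.nil_append, List.cons_append] at h
        rw [ht] at h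
        have := (List.cons_prefix_cons.1 h).2
        have h2 := (List.cons_prefix_cons.1 this).1
        subst h2
        exact ⟨P, rfl⟩
      · simp only [psi, if_neg hp, List.nil_append, List.cons_append] at h
        have := (List.cons_prefix_cons.1 h).2
        have h2 := (List.cons_prefix_cons.1 this).1
        subst h2
        exact ⟨P, rfl⟩
  | cons x v ih =>
    intro P h
    obtain ⟨t1, ht1⟩ := psi_app_head a v [b]
    cases P with
    | nil =>
      have := h.length_le
      have h2 := psi_len a (x :: v)
      simp only [List.length_append, List.length_cons, List.length_nil, psi] at this h2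
      omega
    | cons p P =>
      obtain ⟨t', ht⟩ := psi_app_head a P []
      by_cases hx : x = a
      · by_cases hp : p = a
        · simp only [psi, if_pos hx, if_pos hp, List.cons_append] at h
          have h1 := ih P (List.cons_prefix_cons.1 h).2
          rw [hx, hp]
          exact List.cons_prefix_cons.2 ⟨rfl, h1⟩
        · simp only [psi, if_pos hx, if_neg hp, List.cons_append] at h
          have h1 := (List.cons_prefix_cons.1 h).2
          rw [ht1] at h1
          exact absurd (List.cons_prefix_cons.1 h1).1.symm hp
      · by_cases hp : p = a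
        · simp only [psi, if_neg hx, if_pos hp, List.cons_append] at h
          have h1 := (List.cons_prefix_cons.1 h).2
          rw [ht] at h1
          exact absurd (List.cons_prefix_cons.1 h1).1 hx
        · simp only [psi, if_neg hx, if_neg hp, List.cons_append] at h
          have h1 := (List.cons_prefix_cons.1 h).2
          have h2 := List.cons_prefix_cons.1 h1
          have h3 := ih P h2.2
          rw [h2.1]
          exact List.cons_prefix_cons.2 ⟨rfl, h3⟩

/-- Desubstitution at a letter followed by `a`. -/
theorem desub_split (a i : I) (z : List I) : ∀ (P s : List I),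
    psi a P ++ [a] = s ++ i :: (a :: z) →
    ∃ P1 P2, P = P1 ++ i :: P2 ∧ a :: z = psi a P2 ++ [a] := by
  intro P
  induction P with
  | nil =>
    intro s h
    have := congrArg List.length h
    simp [psi] at this
    omega
  | cons p P ih =>
    intro s h
    by_cases hp : p = a
    · simp only [psi, if_pos hp, List.cons_append] at h
      cases s with
      | nil =>
        simp only [List.nil_append, List.cons.injEq] at h
        exact ⟨[], P, by rw [hp, h.1]; rfl, h.2.symm⟩
      | cons c s =>
        simp only [List.cons_append, List.cons.injEq] at h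
        obtain ⟨P1, P2, h1, h2⟩ := ih s h.2
        exact ⟨p :: P1, P2, by rw [h1]; rfl, h2⟩
    · simp only [psi, if_neg hp, List.cons_append] at h
      cases s with
      | nil =>
        simp only [List.nil_append, List.cons.injEq] at h
        exact absurd h.2.1 hp
      | cons c s =>
        simp only [List.cons_append, List.cons.injEq] at h
        cases s with
        | nil =>
          have h3 := h.2
          simp only [List.nil_append, List.cons.injEq] at h3
          exact ⟨[], P, by rw [h3.1]; rfl, h3.2.symm⟩
        | cons c' s =>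
          have h3 := h.2
          simp only [List.cons_append, List.cons.injEq] at h3
          obtain ⟨P1, P2, h1, h2⟩ := ih s h3.2
          exact ⟨p :: P1, P2, by rw [h1]; rfl, h2⟩

/-- Non-`a` letters are followed by `a`. -/
theorem next_a {a i b : I} (hi : i ≠ a) : ∀ (P s t : List I),
    psi a P ++ [a] = s ++ i :: b :: t → b = a := by
  intro P
  induction P with
  | nil =>
    intro s t h
    have := congrArg List.length h
    simp [psi] at this
    omega
  | cons p P ih =>
    intro s t h
    by_cases hp : p = a
    · simp only [psi, if_pos hp, List.cons_append] at h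
      cases s with
      | nil =>
        simp only [List.nil_append, List.cons.injEq] at h
        exact absurd h.1.symm hi
      | cons c s =>
        simp only [List.cons_append, List.cons.injEq] at h
        exact ih s t h.2
    · simp only [psi, if_neg hp, List.cons_append] at h
      cases s with
      | nil =>
        simp only [List.nil_append, List.cons.injEq] at h
        exact absurd h.1.symm hi
      | cons c s =>
        simp only [List.cons_append, List.cons.injEq] at h
        cases s with
        | nil =>
          have h3 := h.2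
          simp only [List.nil_append, List.cons.injEq] at h3
          obtain ⟨t', ht⟩ := psi_app_head a P []
          rw [ht] at h3
          have h4 := h3.2
          simp only [List.cons.injEq] at h4
          exact h4.1.symm
        | cons c' s =>
          have h3 := h.2
          simp only [List.cons_append, List.cons.injEq] at h3
          exact ih s t h3.2

/-- Every list beginning with `a` which is the beginning of a list in blocks can be parsed. -/
theorem parse (a : I) (v : List I) : ∀ P : List I, v <+: psi a P ++ [a] → v ≠ [] →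
    (∃ v', v = psi a v' ++ [a]) ∨ (∃ v' x, x ≠ a ∧ v = psi a (v' ++ [x])) := by
  intro P
  induction P generalizing v with
  | nil =>
    intro h hv
    left
    refine ⟨[], ?_⟩
    cases v with
    | nil => exact absurd rfl hv
    | cons x v =>
      simp only [psi, List.nil_append] at h ⊢
      have h1 := List.cons_prefix_cons.1 h
      rw [h1.1, List.prefix_nil.1 h1.2]
  | cons p P ih =>
    intro h hv
    cases v with
    | nil => exact absurd rfl hv
    | cons x v =>
      by_cases hp : p = a
      · simp only [psi, if_pos hp, List.cons_append] at h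
        have h1 := List.cons_prefix_cons.1 h
        by_cases hv' : v = []
        · left
          exact ⟨[], by rw [h1.1, hv']; rfl⟩
        · rcases ih v h1.2 hv' with ⟨v', e⟩ | ⟨v', y, hy, e⟩
          · left
            exact ⟨a :: v', by rw [h1.1, e]; simp [psi]⟩
          · right
            exact ⟨a :: v', y, hy, by rw [h1.1, e]; simp [psi]⟩
      · simp only [psi, if_neg hp, List.cons_append] at h
        have h1 := List.cons_prefix_cons.1 h
        cases v with
        | nil =>
          left
          exact ⟨[], by rw [h1.1]; rfl⟩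
        | cons x2 v =>
          have h2 := List.cons_prefix_cons.1 h1.2
          by_cases hv' : v = []
          · right
            exact ⟨[], p, hp, by rw [h1.1, h2.1, hv']; simp [psi, hp]⟩
          · rcases ih v h2.2 hv' with ⟨v', e⟩ | ⟨v', y, hy, e⟩
            · left
              exact ⟨p :: v', by rw [h1.1, h2.1, e]; simp [psi, hp]⟩
            · right
              exact ⟨p :: v', y, hy, by rw [h1.1, h2.1, e]; simp [psi, hp]⟩

/-- Factors can be extended to the right. -/
theorem ext_right {D : ℕ → I} {w : List I} (h : Lg D w) : ∃ c, Lg D (w ++ [c]) := by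
  obtain ⟨k, s, t, h⟩ := h
  cases t with
  | cons c t => exact ⟨c, k, s, t, by rw [← h]; simp⟩
  | nil =>
    obtain ⟨r, hr⟩ := pal_mono (show k ≤ (pal k D).length + 1 from by
      have := pal_len k D
      omega) D
    cases r with
    | nil =>
      have h1 := pal_len ((pal k D).length + 1) D
      rw [← hr] at h1
      simp at h1
    | cons c r =>
      refine ⟨c, (pal k D).length + 1, s, r, ?_⟩
      rw [← hr, ← h]
      simp

theorem unpack {D : ℕ → I} {i : I} {w : List I} (h : Lg D (i :: w)) :
    ∃ (k : ℕ) (s t : List I),
      psi (D 0) (pal k fun n => D (n + 1)) ++ [D 0] = s ++ i :: (w ++ t) := by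
  obtain ⟨k, s, t, h⟩ := h
  cases k with
  | zero => simp [pal] at h
  | succ k =>
    refine ⟨k, s, t, ?_⟩
    have h1 : psi (D 0) (pal k fun n => D (n + 1)) ++ [D 0] = s ++ i :: w ++ t := h.symm
    rw [h1]
    simp

theorem lower1 {D : ℕ → I} {i b : I} {v' : List I}
    (h : Lg D (i :: ((psi (D 0) v' ++ [D 0]) ++ [b]))) :
    Lg (fun n => D (n + 1)) (i :: (v' ++ [b])) := by
  obtain ⟨k, s, t, h⟩ := unpack h
  obtain ⟨z0, hz⟩ := psi_app_head (D 0) v' []
  have h1 : psi (D 0) (pal k fun n => D (n + 1)) ++ [D 0] =
      s ++ i :: (D 0 :: (z0 ++ [b] ++ t)) := by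
    rw [h, hz]
    simp
  obtain ⟨P1, P2, h2, h3⟩ := desub_split _ _ _ _ _ h1
  have h4 : psi (D 0) v' ++ [D 0, b] <+: psi (D 0) P2 ++ [D 0] := by
    rw [← h3]
    refine ⟨t, ?_⟩
    have : psi (D 0) v' ++ [D 0, b] = (psi (D 0) v' ++ [D 0]) ++ [b] := by simp
    rw [this, hz]
    simp
  obtain ⟨t2, h5⟩ := desub_prefix _ _ _ _ h4
  refine ⟨k, P1, t2, ?_⟩
  rw [h2, ← h5]
  simp

theorem lower2 {D : ℕ → I} {i b x : I} {v' : List I} (hx : x ≠ D 0)
    (h : Lg D (i :: (psi (D 0) (v' ++ [x]) ++ [b]))) :
    b = D 0 ∧ ∃ c, Lg (fun n => D (n + 1)) (i :: ((v' ++ [x]) ++ [c])) := by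
  obtain ⟨k, s, t, h⟩ := unpack h
  have e : psi (D 0) (v' ++ [x]) = psi (D 0) v' ++ [D 0, x] := by
    rw [psi_append]
    simp [psi, hx]
  rw [e] at h
  have hb : b = D 0 := by
    have h1 : psi (D 0) (pal k fun n => D (n + 1)) ++ [D 0] =
        (s ++ i :: (psi (D 0) v' ++ [D 0])) ++ x :: b :: t := by
      rw [h]
      simp
    exact next_a hx _ _ _ h1
  refine ⟨hb, ?_⟩
  obtain ⟨z0, hz⟩ := psi_app_head (D 0) v' []
  have h1 : psi (D 0) (pal k fun n => D (n + 1)) ++ [D 0] =
      s ++ i :: (D 0 :: (z0 ++ [x] ++ [b] ++ t)) := by
    have : psi (D 0) v' ++ [D 0, x] = (psi (D 0) v' ++ [D 0]) ++ [x] := by simp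
    rw [h, this, hz]
    simp
  obtain ⟨P1, P2, h2, h3⟩ := desub_split _ _ _ _ _ h1
  have h4 : psi (D 0) v' ++ [D 0, x] <+: psi (D 0) P2 ++ [D 0] := by
    rw [← h3]
    refine ⟨b :: t, ?_⟩
    have : psi (D 0) v' ++ [D 0, x] = (psi (D 0) v' ++ [D 0]) ++ [x] := by simp
    rw [this, hz]
    simp
  obtain ⟨t2, h5⟩ := desub_prefix _ _ _ _ h4
  have h6 : Lg (fun n => D (n + 1)) (i :: (v' ++ [x])) := by
    refine ⟨k, P1, t2, ?_⟩
    rw [h2, ← h5]
    simp
  obtain ⟨c, hc⟩ := ext_right h6
  exact ⟨c, by simpa using hc⟩

/-- **The main property**: if two different letters precede `v` then one of the extensions is a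
beginning of a palindromic closure. -/
theorem star_aux (n : ℕ) : ∀ (D : ℕ → I) (i k b b' : I) (v : List I), v.length ≤ n → i ≠ k →
    Lg D (i :: (v ++ [b])) → Lg D (k :: (v ++ [b'])) →
    ∃ m, v ++ [b] <+: pal m D ∨ v ++ [b'] <+: pal m D := by
  induction n with
  | zero =>
    intro D i k b b' v hv hik h1 h2
    have hv0 : v = [] := List.length_eq_zero_iff.1 (by omega)
    subst hv0
    obtain ⟨k1, s1, t1, h1⟩ := unpack h1
    obtain ⟨k2, s2, t2, h2⟩ := unpack h2
    refine ⟨1, ?_⟩
    by_cases hi : i = D 0
    · have hk : k ≠ D 0 := fun h => hik (hi.trans h.symm)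
      right
      have : b' = D 0 := next_a hk _ s2 t2 (by rw [h2]; simp)
      rw [this]
      exact List.prefix_rfl
    · left
      have : b = D 0 := next_a hi _ s1 t1 (by rw [h1]; simp)
      rw [this]
      exact List.prefix_rfl
  | succ n ih =>
    intro D i k b b' v hv hik h1 h2
    cases v with
    | nil => exact ih D i k b b' [] (Nat.zero_le _) hik h1 h2
    | cons y v =>
      obtain ⟨k1, s1, t1, h3⟩ := unpack h1
      obtain ⟨k2, s2, t2, h4⟩ := unpack h2
      have hy : y = D 0 := by
        by_cases hi : i = D 0
        · have hk : k ≠ D 0 := fun h => hik (hi.trans h.symm)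
          exact next_a hk _ s2 (v ++ [b'] ++ t2) (by rw [h4]; simp)
        · exact next_a hi _ s1 (v ++ [b] ++ t1) (by rw [h3]; simp)
      have hpre : ∃ P2, y :: v <+: psi (D 0) P2 ++ [D 0] := by
        have h5 : psi (D 0) (pal k1 fun n => D (n + 1)) ++ [D 0] =
            s1 ++ i :: (D 0 :: (v ++ [b] ++ t1)) := by
          rw [h3, hy]
          simp
        obtain ⟨P1, P2, -, h6⟩ := desub_split _ _ _ _ _ h5
        refine ⟨P2, ?_⟩
        rw [← h6, hy]
        exact ⟨[b] ++ t1, by simp⟩
      obtain ⟨P2, hP2⟩ := hpre
      rcases parse (D 0) (y :: v) P2 hP2 (by simp) with ⟨v', e⟩ | ⟨v', x, hx, e⟩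
      · rw [e] at h1 h2 ⊢
        have g1 := lower1 h1
        have g2 := lower1 h2
        have hlen : v'.length ≤ n := by
          have := congrArg List.length e
          have h5 := psi_len (D 0) v'
          simp only [List.length_cons, List.length_append, List.length_nil] at this hv
          omega
        have key : ∀ c : I, ∀ m, v' ++ [c] <+: pal m (fun n => D (n + 1)) →
            (psi (D 0) v' ++ [D 0]) ++ [c] <+: pal (m + 1) D := by
          intro c m hm
          have h5 := psi_prefix (a := D 0) hm
          refine List.IsPrefix.trans ?_ h5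
          rw [psi_append]
          by_cases hc : c = D 0
          · refine ⟨[], ?_⟩
            rw [hc]
            simp [psi]
          · refine ⟨[D 0], ?_⟩
            simp [psi, hc]
        obtain ⟨m, hm⟩ := ih _ i k b b' v' hlen hik g1 g2
        exact ⟨m + 1, hm.imp (key b m) (key b' m)⟩
      · rw [e] at h1 h2 ⊢
        obtain ⟨hb, c, g1⟩ := lower2 hx h1
        obtain ⟨hb', c', g2⟩ := lower2 hx h2
        have hlen : (v' ++ [x]).length ≤ n := by
          have := congrArg List.length e
          have h5 := psi_len (D 0) v'
          rw [psi_append] at this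
          simp only [List.length_cons, List.length_append, List.length_nil, psi, if_neg hx]
            at this hv ⊢
          omega
        obtain ⟨m, hm⟩ := ih _ i k c c' (v' ++ [x]) hlen hik g1 g2
        have hm' : v' ++ [x] <+: pal m (fun n => D (n + 1)) := by
          rcases hm with hm | hm
          · exact (List.prefix_append _ _).trans hm
          · exact (List.prefix_append _ _).trans hm
        refine ⟨m + 1, Or.inl ?_⟩
        rw [hb]
        exact psi_prefix hm'

theorem star {D : ℕ → I} {i k b b' : I} {v : List I} (hik : i ≠ k)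
    (h1 : Lg D (i :: (v ++ [b]))) (h2 : Lg D (k :: (v ++ [b']))) :
    ∃ m, v ++ [b] <+: pal m D ∨ v ++ [b'] <+: pal m D :=
  star_aux v.length D i k b b' v (le_refl _) hik h1 h2

theorem mem_psi {a i : I} {P : List I} (h : i ∈ P) : i ∈ psi a P := by
  induction P with
  | nil => simp at h
  | cons p P ih =>
    rcases List.mem_cons.1 h with h | h
    · by_cases hp : p = a
      · simp [psi, hp, h]
      · simp [psi, hp, h]
    · by_cases hp : p = a
      · simp [psi, hp, ih h]
      · simp [psi, hp, ih h]

theorem lg_letter (j : ℕ) : ∀ D : ℕ → I, Lg D [D j] := by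
  induction j with
  | zero => exact fun D => ⟨1, List.infix_rfl⟩
  | succ j ih =>
    intro D
    obtain ⟨k, h⟩ := ih fun n => D (n + 1)
    have h1 : D (j + 1) ∈ pal k fun n => D (n + 1) := h.subset (by simp)
    have h2 : D (j + 1) ∈ pal (k + 1) D := by
      rw [pal]
      exact List.mem_append_left _ (mem_psi h1)
    obtain ⟨s, t, h3⟩ := List.append_of_mem h2
    exact ⟨k + 1, s, t, by rw [h3]; simp⟩

/-- Every closure is preceded by every letter. -/
theorem lg_pre (k : ℕ) : ∀ (D : ℕ → I) (i : I), (∀ n, ∃ m, n ≤ m ∧ D m = i) →
    Lg D (i :: pal k D) := by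
  induction k with
  | zero =>
    intro D i h
    obtain ⟨m, -, hm⟩ := h 0
    rw [← hm]
    exact lg_letter m D
  | succ k ih =>
    intro D i h
    obtain ⟨m, s, t, h1⟩ := ih (fun n => D (n + 1)) i (fun n => by
      obtain ⟨m, hm, h2⟩ := h (n + 1)
      exact ⟨m - 1, by omega, by rw [← h2]; congr 1; omega⟩)
    refine ⟨m + 1, ?_⟩
    obtain ⟨t', ht⟩ := psi_app_head (D 0) t []
    have e : pal (m + 1) D = psi (D 0) s ++ (psi (D 0) [i] ++ (psi (D 0)
        (pal k fun n => D (n + 1)) ++ (D 0 :: t'))) := by
      rw [pal, ← h1, psi_append, psi_append, ← List.singleton_append, psi_append]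
      simp only [List.append_assoc]
      rw [ht]
    rw [e, pal]
    by_cases hi : i = D 0
    · refine ⟨psi (D 0) s, t', ?_⟩
      simp [psi, hi]
    · refine ⟨psi (D 0) s ++ [D 0], t', ?_⟩
      simp [psi, hi]

end Pool.Agent.Helper79.DD
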